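import Mathlib
import Pool.Agent.Helper10.Ram5.Final

set_option autoImplicit false

open Pool.Agent.Helper10.Ram5

namespace Pool.Agent.Results.MP_8410ab_nt.HurwitzGL4

/-- Cusp forms on hyperbolic 5-space for a subgroup `Δ` of finite index in `GL₂` of the Hurwitz
order whose cusps have width of norm at most `9` have Laplace eigenvalue `≥ 4`. -/
theorem result (Δ : Subgroup GL2H) (hΔ : Δ ≤ Gam Hur) (hfi : Δ.relIndex (Gam Hur) ≠ 0)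
    (f : Pt → ℂ) (hf : ContDiffOn ℝ 2 f UH) (hinv : ∀ γ ∈ Δ, ∀ p ∈ UH, f (act γ p) = f p)
    (hbdd : ∃ B : ℝ, ∀ p ∈ UH, ‖f p‖ ≤ B)
    (lam : ℂ) (heig : ∀ p ∈ UH, lap f p = -lam * f p)
    (hcusp : ∀ γ ∈ Gam Hur, ∃ ν ∈ Hur, ν ≠ 0 ∧ ‖ν‖ ^ 2 ≤ 9 ∧
      (∀ x ∈ Hur, γ * trans (ν * x) * γ⁻¹ ∈ Δ) ∧
      ∀ r : ℝ, 0 < r → ∫ x in Set.Icc (0 : Fin 4 → ℝ) 1, f (act γ (ν * par x, r)) = 0)
    (hne : ∃ p ∈ UH, f p ≠ 0) : ∃ l : ℝ, 4 ≤ l ∧ lam = l := by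
  have _ := hΔ
  exact main_Hur Δ hfi f hf hinv hbdd lam heig hcusp hne

end Pool.Agent.Results.MP_8410ab_nt.HurwitzGL4
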