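import Mathlib
import Pool.Agent.Helper10.FamA.Final

set_option autoImplicit false

open Pool.Agent.Helper10.FamP

namespace Pool.Agent.Results.MP_8410ab_nt.LorentzFamily

/-- Let `L` be one of the root lattices `A₃, A₄, A₅, D₅, D₆, E₆, E₇, E₈` (rank `n`, simple roots
`β i`), with the constant `κ = 37, 29, 18, 26, 18, 24, 17, 32`. Cusp forms on hyperbolic
`(n+1)`-space for a group `Δ` meeting the group `O⁺(U ⊕ L)` in a subgroup of finite index, the dual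
lattices of whose cusp lattices have minimal norm at least `δ`, have real Laplace eigenvalue
`≥ κ δ`. The eigenvalue `n² / 4` is the bottom of the continuous spectrum. -/
theorem result : ∀ R ∈ table, ∀ β : Fin R.n → Fin R.n → ℝ,
    (∀ i j, dot (β i) (β j) = (R.C i j : ℝ)) → ∀ δ : ℝ, 0 < δ →
    ∀ Δ : Subgroup (Equiv.Perm (LV R.n)), Δ.relIndex (O β) ≠ 0 →
    ∀ f : Pt R.n → ℂ, ContDiffOn ℝ 2 f (UH R.n) →
    (∀ γ ∈ Δ, ∀ p ∈ UH R.n, f (act γ p) = f p) →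
    (∃ B : ℝ, ∀ p ∈ UH R.n, ‖f p‖ ≤ B) →
    ∀ lam : ℂ, (∀ p ∈ UH R.n, lap f p = -lam * f p) →
    (∀ γ ∈ O β, ∃ b : Fin R.n → Fin R.n → ℝ,
      (∀ i, b i ∈ latOf β ∧ γ * T (b i) * γ⁻¹ ∈ Δ) ∧
      (∀ ξ : Fin R.n → ℝ, ξ ≠ 0 → (∀ i, ∃ k : ℤ, dot ξ (b i) = k) → δ ≤ dot ξ ξ) ∧
      ∀ r : ℝ, 0 < r → ∫ x in Set.Icc (0 : Fin R.n → ℝ) 1,
        f (act γ (fun j => ∑ i, x i * b i j, r)) = 0) →
    (∃ p ∈ UH R.n, f p ≠ 0) → ∃ l : ℝ, R.kap * δ ≤ l ∧ lam = l :=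
  fun R hR β hβ δ hδ Δ hfi f hf hinv hbdd lam heig hcusp hne =>
    main β (family R hR β hβ δ hδ) Δ hfi f hf hinv hbdd lam heig hcusp hne

end Pool.Agent.Results.MP_8410ab_nt.LorentzFamily
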