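import Mathlib
import Pool.Agent.Helper19.QcP.Main
import Pool.Agent.Helper19.Qh.All0
import Pool.Agent.Helper10.Qc.All

set_option autoImplicit false

open Pool.Agent.Helper19.QcP

namespace Pool.Agent.Results.MP_8410ab_nt.QuaternionicFamily

/-- Cusp forms on the quaternionic hyperbolic plane for a subgroup `Δ` of finite index in the
unitary group of the lattice `O³` over the Hurwitz integers `O` (signature `(2,1)`), containing the
conjugates of the Heisenberg translations `T a b`, `a, b ∈ O`, have Laplace eigenvalue `≥ 25`, the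
bottom of the continuous spectrum. -/
theorem result (Δ : Subgroup (Equiv.Perm V)) (hfi : Δ.relIndex UO ≠ 0)
    (hwid : ∀ γ ∈ UO, ∀ a ∈ Hur, ∀ b ∈ Hur, 2 * a.re + ‖b‖ ^ 2 = 0 → γ * T a b * γ⁻¹ ∈ Δ)
    (f : Pt → ℂ) (hf : ContDiffOn ℝ 2 f SD)
    (hinv : ∀ γ ∈ Δ, ∀ p ∈ SD, f (act γ p) = f p)
    (hbdd : ∃ B : ℝ, ∀ p ∈ SD, ‖f p‖ ≤ B)
    (lam : ℂ) (heig : ∀ p ∈ SD, lap f p = -lam * f p)
    (hcusp : ∀ γ ∈ UO, ∀ r : ℝ, 0 < r →
      ∫ x in Set.Icc (0 : (Fin 4 → ℝ) × (Fin 3 → ℝ)) 1, f (act γ (cellpt x r)) = 0)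
    (hne : ∃ p ∈ SD, f p ≠ 0) : ∃ l : ℝ, 25 ≤ l ∧ lam = l :=
  main_O Pool.Agent.Helper19.Qh.main_all (by norm_num) Pool.Agent.Helper10.Qc.wts_O Δ hfi hwid f hf
    hinv hbdd lam heig hcusp hne

end Pool.Agent.Results.MP_8410ab_nt.QuaternionicFamily
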