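import Mathlib
import Pool.Agent.Helper19.UnP.Fam
import Pool.Agent.Helper56.Un.E8Main

set_option autoImplicit false

open Pool.Agent.Helper19.UnP

namespace Pool.Agent.Results.MP_8410ab_nt.UnitaryFamily

/-- Cusp forms on complex hyperbolic space of dimension `m + 1` for a subgroup `Δ` of finite index in
the unitary group `U(M)` of a Hermitian lattice `M` of the family, containing the conjugates of the
Heisenberg translations `T a b`, `a ∈ O`, `b ∈ Λ`, have Laplace eigenvalue `≥ (m + 1)²`, the bottom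
of the continuous spectrum. -/
theorem result {m : ℕ} {Λ : Set (Fin m → ℂ)} {M : Set (V m)} (hF : Fam m Λ M)
    (Δ : Subgroup (Equiv.Perm (V m))) (hfi : Δ.relIndex (UM M) ≠ 0)
    (hwid : ∀ γ ∈ UM M, ∀ a ∈ Eis, ∀ b ∈ Λ, 2 * a.re + nsq b = 0 → γ * T a b * γ⁻¹ ∈ Δ)
    (β : Fin (2 * m) → Fin m → ℂ)
    (hβ : ∀ b, b ∈ Λ ↔ ∃ k : Fin (2 * m) → ℤ, b = fun j => ∑ i, (k i : ℂ) * β i j)
    (f : Pt m → ℂ) (hf : ContDiffOn ℝ 2 f (SD m))
    (hinv : ∀ γ ∈ Δ, ∀ p ∈ SD m, f (act γ p) = f p)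
    (hbdd : ∃ B : ℝ, ∀ p ∈ SD m, ‖f p‖ ≤ B)
    (lam : ℂ) (heig : ∀ p ∈ SD m, lap f p = -lam * f p)
    (hcusp : ∀ γ ∈ UM M, ∀ r : ℝ, 0 < r →
      ∫ x in Set.Icc (0 : (Fin (2 * m) → ℝ) × ℝ) 1, f (act γ (cellpt β x r)) = 0)
    (hne : ∃ p ∈ SD m, f p ≠ 0) : ∃ l : ℝ, ((m : ℝ) + 1) ^ 2 ≤ l ∧ lam = l := by
  cases hF with
  | picard =>
    obtain ⟨l, h1, h2⟩ := main_Pic Δ hfi hwid β hβ f hf hinv hbdd lam heig hcusp hne
    refine ⟨l, ?_, h2⟩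
    norm_num
    linarith
  | d4 =>
    obtain ⟨l, h1, h2⟩ := main_D4 Δ hfi hwid β hβ f hf hinv hbdd lam heig hcusp hne
    refine ⟨l, ?_, h2⟩
    norm_num
    linarith
  | e8 =>
    obtain ⟨l, h1, h2⟩ := main_E8 Δ hfi hwid β hβ f hf hinv hbdd lam heig hcusp hne
    refine ⟨l, ?_, h2⟩
    norm_num
    linarith

end Pool.Agent.Results.MP_8410ab_nt.UnitaryFamily
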